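import Pool.Agent.H43.Quot.Hat

/-!
# MP_4a19d5_ag, Q2: sign positivity for the Cohen–Lenstra zeta function of the (2,2m) link singularity

Let `k` be a finite field with `q` elements and `R = k⟦x, y⟧ / (y (y - x^m))`. Counting the surjections
`R^d → k^n` in two ways, the coefficient of `t^n` in `Z_{R^d}(q^{-d} t)` tends to `[Coh_n(R)]` when
`d → ∞`, so `NZ_{R^d}(q^{-d} t)` tends to the numerator of the Cohen–Lenstra zeta function. The
recursions for `NZ_{R^d}` give `NZ_{R^d}(-q^{-d} t) = D_m(0, d)` at `u = 1/q`, where the polynomials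
`D_m(r, d)` with nonnegative integer coefficients in `u` and `t` are given by

  `D_m(r, d + 1) = (1 + u^(r+d+1) t) D_m(r, d) + u^(r+d+1) t D_m(r + 1, d)`,
  `D_{m+1}(r, 0) = t^r D_m(0, r)`, `D_0(0, d) = 1`.

Hence for `m ≥ 1` the coefficients of `D_m(0, d)` increase with `d` and stabilize, and one can pass to the limit.
-/

namespace Pool.Agent.Results.MP_4a19d5_ag.CohenLenstraPositivity

open Pool.Agent.H43.Quot Filter Topology

/-- **Sign positivity.** For all `m ≥ 1` there is exactly one power series `F ∈ ℤ⟦u⟧⟦t⟧` which, at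
`u = 1/q`, is the numerator `(q^{-1} t; q^{-1})_∞^2 ∑_n [Coh_n(R)] t^n` of the Cohen–Lenstra zeta function
of `R = k⟦x, y⟧ / (y (y - x^m))` for all finite fields `k` with `q` elements (with the infinite product
being the coefficientwise limit of the finite products `∏_{i=1}^N (1 - q^{-i} t)`), and
all coefficients of `F(u, -t)` are nonnegative. -/
theorem result (m : ℕ) (hm : 1 ≤ m) :
    ∃ F : PowerSeries (PowerSeries ℤ),
      (∀ (k : Type) [Field k] [Finite k] (n : ℕ),
        Finite (ModStructures k m n) ∧ ∃ s : ℝ,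
        HasSum (fun j => ((PowerSeries.coeff j (PowerSeries.coeff n F) : ℤ) : ℝ) *
          ((Nat.card k : ℝ)⁻¹) ^ j) s ∧
        Tendsto (fun N => PowerSeries.coeff n (pochInv k N ^ 2 * cohZeta k m)) atTop (𝓝 s)) ∧
      (∀ n j : ℕ, 0 ≤ (-1) ^ n * PowerSeries.coeff j (PowerSeries.coeff n F)) ∧
      (∀ G : PowerSeries (PowerSeries ℤ),
        (∀ (k : Type) [Field k] [Finite k] (n : ℕ), ∃ s : ℝ,
          HasSum (fun j => ((PowerSeries.coeff j (PowerSeries.coeff n G) : ℤ) : ℝ) *
            ((Nat.card k : ℝ)⁻¹) ^ j) s ∧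
          Tendsto (fun N => PowerSeries.coeff n (pochInv k N ^ 2 * cohZeta k m)) atTop (𝓝 s)) →
        G = F) := by
  refine ⟨fhat m, ?_, fhat_nonneg m, ?_⟩
  · intro k _ _ n
    exact ⟨finite_homs n (finite_quotPoints k hm n n), fhat_spec k hm n⟩
  · intro G hG
    ext n j
    have h : ∀ j, PowerSeries.coeff j (PowerSeries.coeff n G) -
        PowerSeries.coeff j (PowerSeries.coeff n (fhat m)) = 0 := by
      apply series_unique
      intro p hp
      have : Fact p.Prime := ⟨hp⟩
      obtain ⟨s, h1, h2⟩ := hG (ZMod p) n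
      obtain ⟨s', h1', h2'⟩ := fhat_spec (ZMod p) hm n
      have hs : s = s' := tendsto_nhds_unique h2 h2'
      subst hs
      rw [Nat.card_zmod] at h1 h1'
      have h3 := h1.sub h1'
      rw [sub_self] at h3
      refine h3.congr_fun ?_
      intro j
      push_cast
      ring
    have h4 := h j
    omega

end Pool.Agent.Results.MP_4a19d5_ag.CohenLenstraPositivity
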