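import Pool.Agent.H43.Quot.Final

/-!
# MP_4a19d5_ag, Q1: sign positivity for the Quot zeta functions of the (2,2m) link singularity

Let `k` be a finite field with `q` elements, `O = k⟦x⟧` and `R = k⟦x, y⟧ / (y (y - x^m))`. Then
`R = O ⊕ O y` with `y^2 = x^m y`, and `R`-submodules of `R^d` of finite codimension are the same as
triples `(I, N, g)` where `I, N ⊆ O^d` have finite codimension and `g : I → O^d / N` is an
`O`-linear map with `x^m g(v) = -v`. Such `g` exist iff `I ⊆ N + x^m O^d`, and then there are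
`q^(d c(N))` of them, where `c(N) = dim O^d / (N + x^m O^d)`. This gives

  `Z_{R^d}(t) = Z_{O^d}(t) W(t)`,  `W(t) = ∑_N t^(dim O^d / N) (q^d t)^(c(N))`,

with `Z_{O^d}(t) = 1 / (t; q)_d`, so that `NZ_{R^d}(t) = (t; q)_d W(t)`. More generally let
`W_m(r, d)` be the same sum over the `N ⊆ (x O)^r × O^d`, with `q^(r + d)` in place of `q^d`. Splitting off
one coordinate (the projection of `N` to it is either everything or contained in `x O`) gives

  `W_m(r, d + 1)(t) = W_m(r, d)(q t) + t W_m(r + 1, d)(t)`,  `W_{m+1}(r, 0)(t) = (q^r t)^r W_m(0, r)(t)`,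

and these recursions imply that `(-1)^r (-t; q)_(r + d) W_m(r, d)(-t)` has nonnegative coefficients.
-/

namespace Pool.Agent.Results.MP_4a19d5_ag.QuotSignPositivity

open Pool.Agent.H43.Quot

/-- **Sign positivity.** For all `m ≥ 1` and `d` there is exactly one polynomial `F ∈ ℤ[L][t]` which
computes `NZ_{R^d}(t) = (t; q)_d^2 ∑_n #Quot_n(R^d)(k) t^n`, for `R = k⟦x, y⟧ / (y (y - x^m))`, at `L = q`
for all finite fields `k` with `q` elements, and all coefficients of `F(L, -t)` are nonnegative. -/
theorem result (m : ℕ) (hm : 1 ≤ m) (d : ℕ) :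
    ∃ F : Polynomial (Polynomial ℤ),
      (∀ (k : Type) [Field k] [Finite k] (n : ℕ), Finite (QuotPoints k m d n) ∧
        PowerSeries.coeff n (numerator k m d) = (F.coeff n).eval (Nat.card k : ℤ)) ∧
      (∀ n j : ℕ, 0 ≤ (-1) ^ n * (F.coeff n).coeff j) ∧
      (∀ G : Polynomial (Polynomial ℤ),
        (∀ (k : Type) [Field k] [Finite k] (n : ℕ),
          PowerSeries.coeff n (numerator k m d) = (G.coeff n).eval (Nat.card k : ℤ)) → G = F) := by
  refine ⟨fpol m d, ?_, nonneg_fpol m d, ?_⟩
  · intro k _ _ n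
    refine ⟨finite_quotPoints k hm d n, ?_⟩
    rw [coeff_numerator k hm, eval_fpol]
  · intro G hG
    ext1 n
    apply poly_eq_of_primes
    intro p hp
    have : Fact p.Prime := ⟨hp⟩
    have h := hG (ZMod p) n
    rw [coeff_numerator (ZMod p) hm, Nat.card_zmod] at h
    rw [← h, eval_fpol]

end Pool.Agent.Results.MP_4a19d5_ag.QuotSignPositivity
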